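import Pool.Agent.H.MP_929345_co.Cubes

/-! Packings and linear maps. -/

set_option autoImplicit false

namespace Pool.Agent.H.MP_929345_co.Un

open Set MeasureTheory Filter
open scoped ENNReal Topology Pointwise

variable {d : ℕ} {C S T : Set (Fin d → ℝ)} (A : (Fin d → ℝ) ≃L[ℝ] (Fin d → ℝ))

theorem gauge_pre (x : Fin d → ℝ) : gauge (A ⁻¹' C) x = gauge C (A x) := by
  unfold gauge
  congr 1
  ext r
  constructor
  · rintro ⟨hr, h⟩
    refine ⟨hr, ?_⟩
    rw [mem_smul_set_iff_inv_smul_mem₀ (ne_of_gt hr)] at h ⊢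
    rw [mem_preimage, map_smul] at h
    exact h
  · rintro ⟨hr, h⟩
    refine ⟨hr, ?_⟩
    rw [mem_smul_set_iff_inv_smul_mem₀ (ne_of_gt hr)] at h ⊢
    rw [mem_preimage, map_smul]
    exact h

theorem interior_pre : interior (A ⁻¹' C) = A ⁻¹' interior C :=
  (A.toHomeomorph.preimage_interior C).symm

theorem body_pre (h : IsBody C) : IsBody (A ⁻¹' C) := by
  refine ⟨h.convex.linear_preimage A.toLinearEquiv.toLinearMap, ?_, ?_, ?_⟩
  · have h1 := h.compact.image A.symm.continuous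
    rwa [A.symm.image_eq_preimage_symm, A.symm_symm] at h1
  · rw [interior_pre]
    obtain ⟨x, hx⟩ := h.nonempty
    exact ⟨A.symm x, by rw [mem_preimage, A.apply_symm_apply]; exact hx⟩
  · intro x hx
    rw [mem_preimage, map_neg]
    exact h.symm _ hx

theorem packing_pre (h : IsPacking C S) : IsPacking (A ⁻¹' C) (A ⁻¹' S) := by
  intro x hx y hy hne
  rw [gauge_pre, map_sub]
  exact h _ hx _ hy (fun e => hne (A.injective e))

theorem totSep_pre (h : TotSep C T) : TotSep (A ⁻¹' C) (A ⁻¹' T) := by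
  intro x hx y hy hne
  obtain ⟨f, hf, t, h1, h2, h3⟩ := h _ hx _ hy (fun e => hne (A.injective e))
  refine ⟨f.comp (A : (Fin d → ℝ) →L[ℝ] (Fin d → ℝ)), ?_, t, ?_, ?_, ?_⟩
  · intro hcon
    apply hf
    ext v
    have h4 := congrArg (fun F : (Fin d → ℝ) →L[ℝ] ℝ => F (A.symm v)) hcon
    simpa using h4
  · intro w hw
    have := h1 (A w) hw
    simpa using this
  · intro w hw
    have := h2 (A w) hw
    simpa using this
  · intro z hz w hw
    rw [interior_pre] at hw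
    have := h3 (A z) hz (A w) hw
    simpa using this

theorem rhoSep_pre {ρ : ℝ} (h : RhoSep ρ C S) : RhoSep ρ (A ⁻¹' C) (A ⁻¹' S) := by
  intro c hc
  have h1 := totSep_pre A (h (A c) hc)
  have hsub : {c' ∈ A ⁻¹' S | ∀ w ∈ A ⁻¹' C, ∃ v ∈ A ⁻¹' C, c' + w = c + ρ • v} ⊆
      A ⁻¹' {c' ∈ S | ∀ w ∈ C, ∃ v ∈ C, c' + w = A c + ρ • v} := by
    rintro x ⟨hx, hx'⟩
    refine ⟨hx, fun w hw => ?_⟩
    obtain ⟨v, hv, hvw⟩ := hx' (A.symm w) (by rw [mem_preimage, A.apply_symm_apply]; exact hw)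
    refine ⟨A v, hv, ?_⟩
    have h2 := congrArg A hvw
    rw [map_add, map_add, map_smul, A.apply_symm_apply] at h2
    exact h2
  intro x hx y hy hne
  obtain ⟨f, hf, t, g1, g2, g3⟩ := h1 x (hsub hx) y (hsub hy) hne
  exact ⟨f, hf, t, g1, g2, fun z hz => g3 z (hsub hz)⟩

/-- Volumes of preimages. -/
theorem vol_pre : ∃ κ : ℝ≥0∞, κ ≠ 0 ∧ κ ≠ ⊤ ∧ ∀ T : Set (Fin d → ℝ),
    volume (A ⁻¹' T) = κ * volume T := by
  have hd : LinearMap.det (A.toLinearEquiv : (Fin d → ℝ) →ₗ[ℝ] (Fin d → ℝ)) ≠ 0 :=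
    (LinearEquiv.isUnit_det' A.toLinearEquiv).ne_zero
  refine ⟨ENNReal.ofReal |(LinearMap.det
    (A.toLinearEquiv : (Fin d → ℝ) →ₗ[ℝ] (Fin d → ℝ)))⁻¹|, ?_, ENNReal.ofReal_ne_top, ?_⟩
  · rw [Ne, ENNReal.ofReal_eq_zero, not_le]
    exact abs_pos.2 (inv_ne_zero hd)
  · intro T
    exact Measure.addHaar_preimage_linearMap volume hd T

end Pool.Agent.H.MP_929345_co.Un
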