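import Pool.Agent.H.MP_929345_co.Un.Lin

/-! A frame of Auerbach's type for a convex body. -/

set_option autoImplicit false

namespace Pool.Agent.H.MP_929345_co.Un

open Set MeasureTheory Filter
open scoped ENNReal Topology Pointwise

variable {d : ℕ} {C : Set (Fin d → ℝ)}

theorem gauge_comb (h : IsBody C) (v : Fin d → Fin d → ℝ) (hv : ∀ i, v i ∈ C) (y : Fin d → ℝ) :
    gauge C (∑ i, y i • v i) ≤ ∑ i, |y i| := by
  refine (gauge_sum_le h.convex h.absorbent _ _).trans (Finset.sum_le_sum fun i _ => ?_)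
  rw [h.gauge_smul]
  exact mul_le_of_le_one_right (abs_nonneg _) (h.gauge_le_one_iff.2 (hv i))

theorem exists_frame (h : IsBody C) : ∃ A : (Fin d → ℝ) ≃L[ℝ] (Fin d → ℝ),
    (∀ x ∈ C, ∀ i, |A x i| ≤ 1) ∧ ∀ y : Fin d → ℝ, (∑ i, |y i|) ≤ 1 → A.symm y ∈ C := by
  have hP : IsCompact (Set.pi univ (fun _ : Fin d => C)) := isCompact_univ_pi fun _ => h.compact
  have hcont : Continuous fun v : Fin d → Fin d → ℝ => |(Matrix.of v).det| :=
    (Continuous.matrix_det continuous_id).abs
  obtain ⟨ε, hε, hball⟩ := Metric.mem_nhds_iff.1 h.nhds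
  have hv0 : (fun i : Fin d => (Pi.single i (ε / 2) : Fin d → ℝ)) ∈
      Set.pi univ (fun _ : Fin d => C) := by
    intro i _
    apply hball
    rw [mem_ball_zero_iff, Pi.norm_single, Real.norm_eq_abs, abs_of_pos (by linarith)]
    linarith
  obtain ⟨v, hv, hmax⟩ := hP.exists_isMaxOn ⟨_, hv0⟩ hcont.continuousOn
  have hvC : ∀ i, v i ∈ C := fun i => hv i (mem_univ i)
  obtain ⟨M, hM⟩ : ∃ M : Matrix (Fin d) (Fin d) ℝ, M = Matrix.of v := ⟨_, rfl⟩
  have hd0 : 0 < |M.det| := by
    have h1 : |(Matrix.of (fun i : Fin d => (Pi.single i (ε / 2) : Fin d → ℝ))).det| ≤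
        |(Matrix.of v).det| := hmax hv0
    have h2 : (Matrix.of (fun i : Fin d => (Pi.single i (ε / 2) : Fin d → ℝ))) =
        Matrix.diagonal (fun _ => ε / 2) := by
      ext i j
      rw [Matrix.of_apply, Matrix.diagonal_apply, Pi.single_apply]
      by_cases hij : i = j
      · rw [if_pos hij, if_pos hij.symm]
      · rw [if_neg hij, if_neg (fun e => hij e.symm)]
    rw [h2, Matrix.det_diagonal, Finset.prod_const] at h1
    rw [hM]
    refine lt_of_lt_of_le (abs_pos.2 (pow_ne_zero _ ?_)) h1
    linarith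
  have hd : M.det ≠ 0 := abs_pos.1 hd0
  obtain ⟨N, hN⟩ : ∃ N : Matrix (Fin d) (Fin d) ℝ, N = M.transpose := ⟨_, rfl⟩
  have hNd : N.det = M.det := by rw [hN, Matrix.det_transpose]
  have hu : IsUnit N.det := by
    rw [hNd]
    exact hd.isUnit
  let e : (Fin d → ℝ) ≃ₗ[ℝ] (Fin d → ℝ) :=
    { Matrix.toLin' N⁻¹ with
      invFun := fun y => N.mulVec y
      left_inv := fun x => by
        show N.mulVec (Matrix.toLin' N⁻¹ x) = x
        rw [Matrix.toLin'_apply, Matrix.mulVec_mulVec, Matrix.mul_nonsing_inv _ hu,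
          Matrix.one_mulVec]
      right_inv := fun x => by
        show Matrix.toLin' N⁻¹ (N.mulVec x) = x
        rw [Matrix.toLin'_apply, Matrix.mulVec_mulVec, Matrix.nonsing_inv_mul _ hu,
          Matrix.one_mulVec] }
  refine ⟨e.toContinuousLinearEquiv, ?_, ?_⟩
  · intro x hx i
    have h1 : e.toContinuousLinearEquiv x = (N⁻¹).mulVec x := Matrix.toLin'_apply N⁻¹ x
    rw [h1]
    have h2 := congrFun (Matrix.det_smul_inv_mulVec_eq_cramer N x hu) i
    rw [hN, Matrix.cramer_transpose_apply, ← hN, hNd] at h2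
    have h3 : |(M.updateRow i x).det| ≤ |M.det| := by
      have h4 : (Function.update v i x) ∈ Set.pi univ (fun _ : Fin d => C) := by
        intro j _
        by_cases hj : j = i
        · subst hj
          rw [Function.update_self]
          exact hx
        · rw [Function.update_of_ne hj]
          exact hvC j
      have h5 : |(Matrix.of (Function.update v i x)).det| ≤ |(Matrix.of v).det| := hmax h4
      have h6 : M.updateRow i x = Matrix.of (Function.update v i x) := by
        rw [hM]
        rfl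
      rw [h6, hM]
      exact h5
    rw [← h2] at h3
    have h7 : |M.det| * |((N⁻¹).mulVec x) i| ≤ |M.det| := by
      rw [← abs_mul]
      exact h3
    exact le_of_mul_le_mul_left (by rw [mul_one]; exact h7) hd0
  · intro y hy
    have h1 : e.toContinuousLinearEquiv.symm y = ∑ i, y i • v i := by
      have h2 : e.toContinuousLinearEquiv.symm y = N.mulVec y := rfl
      rw [h2]
      funext j
      rw [Matrix.mulVec, dotProduct, Finset.sum_apply]
      refine Finset.sum_congr rfl fun i _ => ?_
      rw [hN, hM, Matrix.transpose_apply, Matrix.of_apply, Pi.smul_apply, smul_eq_mul, mul_comm]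
    rw [h1]
    exact h.gauge_le_one_iff.1 ((gauge_comb h v hvC y).trans hy)

end Pool.Agent.H.MP_929345_co.Un
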