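import Pool.Agent.H.MP_929345_co.Un.Win
import Pool.Agent.H.MP_929345_co.Sw.Mon

/-! Linear invariance and monotonicity of the two densities. -/

set_option autoImplicit false

namespace Pool.Agent.H.MP_929345_co.Un

open Set MeasureTheory Filter
open scoped ENNReal Topology Pointwise

variable {d : ℕ} {C D S T : Set (Fin d → ℝ)} (A : (Fin d → ℝ) ≃L[ℝ] (Fin d → ℝ))

/-- The supremum over the totally separable packings. -/
noncomputable def dS (C : Set (Fin d → ℝ)) : ℝ≥0∞ :=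
  ⨆ S ∈ {S : Set (Fin d → ℝ) | IsPacking C S ∧ TotSep C S}, dens C S

/-- The supremum over the `ρ`-separable packings. -/
noncomputable def dR (ρ : ℝ) (C : Set (Fin d → ℝ)) : ℝ≥0∞ :=
  ⨆ S ∈ {S : Set (Fin d → ℝ) | IsPacking C S ∧ RhoSep ρ C S}, dens C S

theorem rhoSep_of (ρ : ℝ) (h : TotSep C S) : RhoSep ρ C S := by
  intro c _ x hx y hy hne
  obtain ⟨f, hf, t, h1, h2, h3⟩ := h x hx.1 y hy.1 hne
  exact ⟨f, hf, t, h1, h2, fun z hz => h3 z hz.1⟩

theorem dS_le_dR (ρ : ℝ) (C : Set (Fin d → ℝ)) : dS C ≤ dR ρ C :=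
  biSup_mono fun _ hS => ⟨hS.1, rhoSep_of ρ hS.2⟩

theorem pre_pre : A.symm ⁻¹' (A ⁻¹' C) = C := by
  ext x
  simp

theorem rho_le (h : IsBody C) (r : ℕ) (hr : 0 < r) : ∃ ρ₀ : ℝ, 1 ≤ ρ₀ ∧ ∀ ρ : ℝ, ρ₀ ≤ ρ →
    ∀ (A : (Fin d → ℝ) ≃L[ℝ] (Fin d → ℝ)) (S : Set (Fin d → ℝ)), IsPacking (A ⁻¹' C) S →
      RhoSep ρ (A ⁻¹' C) S → dens (A ⁻¹' C) S ≤ ENNReal.ofReal (aa C r) * volume C := by
  classical
  obtain ⟨ρ₀, h0, hloc⟩ := loc_card h r hr
  refine ⟨ρ₀, h0, fun ρ hρ A S hS hS' => ?_⟩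
  have hr' : (0 : ℝ) < r := by exact_mod_cast hr
  have g1 := packing_pre A.symm hS
  have g2 := rhoSep_pre A.symm hS'
  rw [pre_pre] at g1 g2
  have hw := dens_win A (body_pre A h) hS hr' (Nn C r) (by
    intro z F hF
    have h1 : (F.image A).card = F.card := Finset.card_image_of_injective _ A.injective
    rw [← h1]
    refine hloc ρ hρ _ g1 g2 z _ ?_ ?_
    · intro y hy
      rw [Finset.coe_image] at hy
      obtain ⟨s, hs, rfl⟩ := hy
      rw [mem_preimage, A.symm_apply_apply]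
      exact (hF s hs).1
    · intro y hy
      rw [Finset.coe_image] at hy
      obtain ⟨s, hs, rfl⟩ := hy
      exact (hF s hs).2)
  refine hw.trans (le_of_eq ?_)
  obtain ⟨κ, hκ0, hκT, hκ⟩ := vol_pre A
  have hp : (0 : ℝ) < (2 * r) ^ d := by positivity
  rw [hκ, hκ, vol_cub hr', ENNReal.mul_div_mul_left _ _ hκ0 hκT]
  unfold aa
  rw [ENNReal.ofReal_div_of_pos hp, ENNReal.ofReal_natCast, div_eq_mul_inv, div_eq_mul_inv]
  ring

theorem rho_unif (h : IsBody C) {δ : ℝ} (hδ : 0 < δ) : ∃ ρ₀ : ℝ, 1 ≤ ρ₀ ∧ ∀ ρ : ℝ, ρ₀ ≤ ρ →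
    ∀ A : (Fin d → ℝ) ≃L[ℝ] (Fin d → ℝ), dR ρ (A ⁻¹' C) ≤ dS C + ENNReal.ofReal δ := by
  set v : ℝ := (volume C).toReal with hv
  have hv0 : 0 ≤ v := ENNReal.toReal_nonneg
  have hvC : volume C = ENNReal.ofReal v := (ENNReal.ofReal_toReal h.volume_ne_top).symm
  obtain ⟨r, -, hr0, hr⟩ := exists_near h (η := δ / (v + 1)) (by positivity) 0
  obtain ⟨ρ₀, h0, hρ₀⟩ := rho_le h r hr0
  refine ⟨ρ₀, h0, fun ρ hρ A => iSup₂_le fun S hS => ?_⟩
  refine (hρ₀ ρ hρ A S hS.1 hS.2).trans ?_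
  have h1 : ENNReal.ofReal (gam C) * volume C ≤ dS C := gam_le_sup h
  calc ENNReal.ofReal (aa C r) * volume C
      ≤ ENNReal.ofReal (gam C + δ / (v + 1)) * volume C := by
        gcongr
    _ = ENNReal.ofReal (gam C) * volume C + ENNReal.ofReal (δ / (v + 1)) * volume C := by
        rw [ENNReal.ofReal_add (gam_nonneg C) (by positivity), add_mul]
    _ ≤ dS C + ENNReal.ofReal δ := by
        refine add_le_add h1 ?_
        rw [hvC, ← ENNReal.ofReal_mul (by positivity)]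
        apply ENNReal.ofReal_le_ofReal
        rw [div_mul_eq_mul_div, div_le_iff₀ (by positivity)]
        nlinarith

theorem dS_pre_le (h : IsBody C) : dS (A ⁻¹' C) ≤ dS C := by
  refine ENNReal.le_of_forall_pos_le_add fun δ hδ _ => ?_
  obtain ⟨ρ₀, -, hρ₀⟩ := rho_unif h (δ := δ) (by exact_mod_cast hδ)
  refine (dS_le_dR ρ₀ _).trans ((hρ₀ ρ₀ le_rfl A).trans ?_)
  rw [ENNReal.ofReal_coe_nnreal]

theorem dS_pre (h : IsBody C) : dS (A ⁻¹' C) = dS C := by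
  refine le_antisymm (dS_pre_le A h) ?_
  have h1 := dS_pre_le A.symm (body_pre A h)
  rwa [pre_pre] at h1

theorem dR_mono (hC : IsBody C) (hD : IsBody D) (h : C ⊆ D) {ρ : ℝ} (hρ : 1 ≤ ρ) :
    dR ρ D ≤ dR ρ C * (volume D / volume C) := by
  refine iSup₂_le fun S hS => ?_
  have h1 := Sw.packing_mono hC h hS.1
  have h2 := Sw.rhoSep_mono hC hD h hρ hS.2
  have h3 := Sw.dens_mono hC hD h h1
  have h4 : dens C S ≤ dR ρ C := le_biSup (dens C) (show S ∈ {S : Set (Fin d → ℝ) |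
    IsPacking C S ∧ RhoSep ρ C S} from ⟨h1, h2⟩)
  rw [← mul_div_assoc, ENNReal.le_div_iff_mul_le (Or.inl hC.volume_pos.ne')
    (Or.inl hC.volume_ne_top)]
  exact h3.trans (by gcongr)

theorem dS_mono (hC : IsBody C) (hD : IsBody D) (h : C ⊆ D) :
    dS D ≤ dS C * (volume D / volume C) := by
  refine iSup₂_le fun S hS => ?_
  have h1 := Sw.packing_mono hC h hS.1
  have h2 := Sw.totSep_mono h subset_rfl hS.2
  have h3 := Sw.dens_mono hC hD h h1
  have h4 : dens C S ≤ dS C := le_biSup (dens C) (show S ∈ {S : Set (Fin d → ℝ) |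
    IsPacking C S ∧ TotSep C S} from ⟨h1, h2⟩)
  rw [← mul_div_assoc, ENNReal.le_div_iff_mul_le (Or.inl hC.volume_pos.ne')
    (Or.inl hC.volume_ne_top)]
  exact h3.trans (by gcongr)

/-- Densities are at most `2 ^ d`. -/
theorem dS_le (h : IsBody C) : dS C ≤ ENNReal.ofReal (2 ^ d) := by
  refine iSup₂_le fun S hS => ?_
  rw [dens_def]
  refine limsup_le_of_le (by isBoundedDefault) ?_
  filter_upwards [eventually_gt_atTop 0] with l hl
  have h1 := ncard_bound h (T := S) (fun x hx y hy hne => by linarith [hS.1 x hx y hy hne]) hl.le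
  apply ENNReal.div_le_of_le_mul
  refine h1.trans (le_of_eq ?_)
  rw [← ENNReal.ofReal_mul (by positivity), ← mul_pow]
  congr 2
  ring

end Pool.Agent.H.MP_929345_co.Un
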