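import Pool.Agent.H.MP_929345_co.Un.Lin

/-! Approximation by the convex hulls of grid points. -/

set_option autoImplicit false

namespace Pool.Agent.H.MP_929345_co.Un

open Set MeasureTheory Filter
open scoped ENNReal Topology Pointwise

variable {d : ℕ} {C : Set (Fin d → ℝ)}

/-- The grid points in the cube. -/
noncomputable def Gr (d N : ℕ) : Finset (Fin d → ℝ) :=
  Fintype.piFinset fun _ : Fin d => (Finset.Icc (-(N : ℤ)) N).image fun z : ℤ => (z : ℝ) / N

theorem mem_gr {N : ℕ} {g : Fin d → ℝ} :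
    g ∈ Gr d N ↔ ∀ i, ∃ z : ℤ, (-(N : ℤ) ≤ z ∧ z ≤ N) ∧ (z : ℝ) / N = g i := by
  unfold Gr
  simp only [Fintype.mem_piFinset, Finset.mem_image, Finset.mem_Icc]

open Classical in
/-- The grid points in `C`. -/
noncomputable def Fr (N : ℕ) (C : Set (Fin d → ℝ)) : Finset (Fin d → ℝ) :=
  (Gr d N).filter (fun g => g ∈ C)

theorem round {N : ℕ} (hN : 0 < N) (c t : ℝ) (ht : |t| ≤ 1) :
    ∃ z : ℤ, (-(N : ℤ) ≤ z ∧ z ≤ N) ∧ |(z : ℝ) / N - t| ≤ 1 / N ∧
      c * t ≤ c * ((z : ℝ) / N) := by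
  have hN0 : (0 : ℝ) < N := by exact_mod_cast hN
  have ht' := abs_le.1 ht
  rcases le_total 0 c with hc | hc
  · refine ⟨⌈(N : ℝ) * t⌉, ⟨?_, ?_⟩, ?_, ?_⟩
    · have h1 : (-(N : ℝ)) ≤ N * t := by nlinarith
      have h2 := h1.trans (Int.le_ceil ((N : ℝ) * t))
      exact_mod_cast h2
    · rw [Int.ceil_le]
      push_cast
      nlinarith
    · have h1 := Int.le_ceil ((N : ℝ) * t)
      have h2 := Int.ceil_lt_add_one ((N : ℝ) * t)
      have e : (⌈(N : ℝ) * t⌉ : ℝ) / N - t = ((⌈(N : ℝ) * t⌉ : ℝ) - N * t) / N := by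
        field_simp
      rw [e, abs_div, abs_of_pos hN0, abs_of_nonneg (by linarith)]
      gcongr
      linarith
    · apply mul_le_mul_of_nonneg_left _ hc
      rw [le_div_iff₀ hN0, mul_comm]
      exact Int.le_ceil _
  · refine ⟨⌊(N : ℝ) * t⌋, ⟨?_, ?_⟩, ?_, ?_⟩
    · rw [Int.le_floor]
      push_cast
      nlinarith
    · have h1 : (N : ℝ) * t ≤ N := by nlinarith
      have h2 := (Int.floor_le ((N : ℝ) * t)).trans h1
      exact_mod_cast h2
    · have h1 := Int.floor_le ((N : ℝ) * t)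
      have h2 := Int.lt_floor_add_one ((N : ℝ) * t)
      have e : (⌊(N : ℝ) * t⌋ : ℝ) / N - t = ((⌊(N : ℝ) * t⌋ : ℝ) - N * t) / N := by
        field_simp
      rw [e, abs_div, abs_of_pos hN0, abs_of_nonpos (by linarith)]
      gcongr
      linarith
    · apply mul_le_mul_of_nonpos_left _ hc
      rw [div_le_iff₀ hN0, mul_comm]
      exact Int.floor_le _

theorem hull_sub (h : IsBody C) (N : ℕ) : convexHull ℝ (Fr N C : Set (Fin d → ℝ)) ⊆ C := by
  apply convexHull_min _ h.convex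
  intro g hg
  rw [Fr, Finset.coe_filter] at hg
  exact hg.2

theorem sub_hull (h : IsBody C) (h1 : ∀ x ∈ C, ∀ i, |x i| ≤ 1)
    (h2 : ∀ y : Fin d → ℝ, (∑ i, |y i|) ≤ 1 → y ∈ C) {N : ℕ} (hN : 0 < N) (hNd : d < N)
    {x : Fin d → ℝ} (hx : x ∈ C) :
    (1 - (d : ℝ) / N) • x ∈ convexHull ℝ (Fr N C : Set (Fin d → ℝ)) := by
  classical
  have hN0 : (0 : ℝ) < N := by exact_mod_cast hN
  have hη : 0 ≤ (d : ℝ) / N := by positivity
  have hη1 : (d : ℝ) / N < 1 := by
    rw [div_lt_one hN0]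
    exact_mod_cast hNd
  by_contra hcon
  have hcl : IsClosed (convexHull ℝ (Fr N C : Set (Fin d → ℝ))) :=
    ((Fr N C).finite_toSet.isCompact_convexHull ℝ).isClosed
  obtain ⟨f, u, hf1, hf2⟩ := geometric_hahn_banach_closed_point (convex_convexHull ℝ _) hcl hcon
  set y : Fin d → ℝ := (1 - (d : ℝ) / N) • x with hy
  have hyi : ∀ i, |y i| ≤ 1 := by
    intro i
    rw [hy, Pi.smul_apply, smul_eq_mul, abs_mul, abs_of_nonneg (by linarith)]
    have := h1 x hx i
    have h3 := abs_nonneg (x i)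
    nlinarith
  choose z hz1 hz2 hz3 using fun i : Fin d => round hN (f (Pi.single i 1)) (y i) (hyi i)
  have hsum : ∀ w : Fin d → ℝ, f w = ∑ i, f (Pi.single i 1) * w i := by
    intro w
    have hw : w = ∑ i, w i • (Pi.single i (1 : ℝ) : Fin d → ℝ) := by
      funext j
      rw [Finset.sum_apply]
      simp [Pi.single_apply]
    conv_lhs => rw [hw]
    rw [map_sum]
    refine Finset.sum_congr rfl fun i _ => ?_
    rw [map_smul, smul_eq_mul, mul_comm]
  set g : Fin d → ℝ := fun i => (z i : ℝ) / N with hg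
  have hfg : f y ≤ f g := by
    rw [hsum, hsum g]
    exact Finset.sum_le_sum fun i _ => hz3 i
  have hunit : ∀ w : Fin d → ℝ, gauge C w ≤ ∑ i, |w i| := by
    intro w
    have hw : w = ∑ i, w i • (Pi.single i (1 : ℝ) : Fin d → ℝ) := by
      funext j
      rw [Finset.sum_apply]
      simp [Pi.single_apply]
    conv_lhs => rw [hw]
    refine (gauge_sum_le h.convex h.absorbent _ _).trans (Finset.sum_le_sum fun i _ => ?_)
    rw [h.gauge_smul]
    refine mul_le_of_le_one_right (abs_nonneg _) (h.gauge_le_one_iff.2 (h2 _ ?_))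
    rw [Finset.sum_eq_single i]
    · rw [Pi.single_eq_same, abs_one]
    · intro j _ hj
      rw [Pi.single_eq_of_ne hj, abs_zero]
    · intro hi
      exact absurd (Finset.mem_univ i) hi
  have hgC : g ∈ C := by
    apply h.gauge_le_one_iff.1
    have e : g = y + (g - y) := by abel
    rw [e]
    refine (gauge_add_le h.convex h.absorbent _ _).trans ?_
    have g1 : gauge C y ≤ 1 - (d : ℝ) / N := by
      rw [hy, h.gauge_smul, abs_of_nonneg (by linarith)]
      exact mul_le_of_le_one_right (by linarith) (h.gauge_le_one_iff.2 hx)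
    have g2 : gauge C (g - y) ≤ (d : ℝ) / N := by
      refine (hunit _).trans ?_
      calc ∑ i, |(g - y) i| ≤ ∑ _i : Fin d, (1 : ℝ) / N := Finset.sum_le_sum fun i _ => hz2 i
        _ = (d : ℝ) / N := by
          rw [Finset.sum_const, Finset.card_univ, Fintype.card_fin, nsmul_eq_mul]
          ring
    linarith
  have hgF : g ∈ convexHull ℝ (Fr N C : Set (Fin d → ℝ)) := by
    apply subset_convexHull
    rw [Fr, Finset.coe_filter]
    exact ⟨mem_gr.2 fun i => ⟨z i, hz1 i, rfl⟩, hgC⟩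
  have := hf1 g hgF
  linarith

theorem hull_body (h : IsBody C) (h1 : ∀ x ∈ C, ∀ i, |x i| ≤ 1)
    (h2 : ∀ y : Fin d → ℝ, (∑ i, |y i|) ≤ 1 → y ∈ C) {N : ℕ} (hN : 0 < N) (hNd : d < N) :
    IsBody (convexHull ℝ (Fr N C : Set (Fin d → ℝ))) := by
  classical
  have hN0 : (0 : ℝ) < N := by exact_mod_cast hN
  have hη1 : (d : ℝ) / N < 1 := by
    rw [div_lt_one hN0]
    exact_mod_cast hNd
  refine ⟨convex_convexHull ℝ _, (Fr N C).finite_toSet.isCompact_convexHull ℝ, ?_, ?_⟩
  · have ho : IsOpen ((1 - (d : ℝ) / N) • interior C) := isOpen_interior.smul₀ (by linarith)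
    have hs : (1 - (d : ℝ) / N) • interior C ⊆ convexHull ℝ (Fr N C : Set (Fin d → ℝ)) := by
      rintro _ ⟨x, hx, rfl⟩
      exact sub_hull h h1 h2 hN hNd (interior_subset hx)
    obtain ⟨x, hx⟩ := h.nonempty
    exact ⟨(1 - (d : ℝ) / N) • x, interior_maximal hs ho (smul_mem_smul_set hx)⟩
  · intro x hx
    have hneg : (Fr N C : Set (Fin d → ℝ)) ⊆ -(convexHull ℝ (Fr N C : Set (Fin d → ℝ))) := by
      intro g hg
      rw [Set.mem_neg]
      apply subset_convexHull
      rw [Fr, Finset.coe_filter] at hg ⊢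
      refine ⟨mem_gr.2 fun i => ?_, h.symm g hg.2⟩
      obtain ⟨z, hz, hzg⟩ := mem_gr.1 hg.1 i
      refine ⟨-z, ⟨by omega, by omega⟩, ?_⟩
      rw [Pi.neg_apply, ← hzg]
      push_cast
      ring
    have h3 := convexHull_min hneg (convex_convexHull ℝ _).neg hx
    exact Set.mem_neg.1 h3

end Pool.Agent.H.MP_929345_co.Un
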