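import Pool.Agent.H.MP_929345_co.Un.Inv
import Pool.Agent.H.MP_929345_co.Un.Aub
import Pool.Agent.H.MP_929345_co.Un.Net

/-! The densities of `ρ`-separable packings converge uniformly in the body. -/

set_option autoImplicit false

namespace Pool.Agent.H.MP_929345_co.Un

open Set MeasureTheory Filter
open scoped ENNReal Topology Pointwise

variable {d : ℕ}

/-- Multiplication by a number. -/
noncomputable def Hm (d : ℕ) {t : ℝ} (ht : t ≠ 0) : (Fin d → ℝ) ≃L[ℝ] (Fin d → ℝ) :=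
  (LinearEquiv.smulOfNeZero ℝ (Fin d → ℝ) t ht).toContinuousLinearEquiv

theorem hm_apply {t : ℝ} (ht : t ≠ 0) (x : Fin d → ℝ) : Hm d ht x = t • x := rfl

theorem vol_hm {t : ℝ} (ht : 0 < t) (K : Set (Fin d → ℝ)) :
    volume (Hm d ht.ne' ⁻¹' K) = ENNReal.ofReal ((t ^ d)⁻¹) * volume K := by
  have h1 := Measure.addHaar_preimage_smul (volume : Measure (Fin d → ℝ)) ht.ne' K
  have h2 : (fun x : Fin d → ℝ => t • x) ⁻¹' K = Hm d ht.ne' ⁻¹' K := rfl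
  rw [← h2, h1, Module.finrank_fin_fun, abs_of_pos (by positivity)]

/-- The comparison for one body. -/
theorem one_body {C : Set (Fin d → ℝ)} (h : IsBody C) {N : ℕ} (hN : 0 < N) (hNd : d < N) :
    ∃ F ∈ (Gr d N).powerset, IsBody (convexHull ℝ (F : Set (Fin d → ℝ))) ∧
      ∀ (ρ δ : ℝ), 1 ≤ ρ → (∀ A : (Fin d → ℝ) ≃L[ℝ] (Fin d → ℝ),
        dR ρ (A ⁻¹' convexHull ℝ (F : Set (Fin d → ℝ))) ≤
          dS (convexHull ℝ (F : Set (Fin d → ℝ))) + ENNReal.ofReal δ) →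
        dR ρ C ≤ (dS C * ENNReal.ofReal (((1 - (d : ℝ) / N) ^ d)⁻¹) + ENNReal.ofReal δ) *
          ENNReal.ofReal (((1 - (d : ℝ) / N) ^ d)⁻¹) := by
  classical
  have hN0 : (0 : ℝ) < N := by exact_mod_cast hN
  have hη1 : (d : ℝ) / N < 1 := by
    rw [div_lt_one hN0]
    exact_mod_cast hNd
  obtain ⟨A, hA1, hA2⟩ := exists_frame h
  have hC' := body_pre A.symm h
  have g1 : ∀ x ∈ A.symm ⁻¹' C, ∀ i, |x i| ≤ 1 := by
    intro x hx i
    have := hA1 _ hx i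
    rwa [A.apply_symm_apply] at this
  have g2 : ∀ y : Fin d → ℝ, (∑ i, |y i|) ≤ 1 → y ∈ A.symm ⁻¹' C := hA2
  obtain ⟨K, hK⟩ : ∃ K : Set (Fin d → ℝ),
      K = convexHull ℝ (Fr N (A.symm ⁻¹' C) : Set (Fin d → ℝ)) := ⟨_, rfl⟩
  have hKb : IsBody K := by
    rw [hK]
    exact hull_body hC' g1 g2 hN hNd
  refine ⟨Fr N (A.symm ⁻¹' C), ?_, ?_, ?_⟩
  · rw [Finset.mem_powerset]
    exact Finset.filter_subset _ _
  · rw [← hK]
    exact hKb
  · rw [← hK]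
    intro ρ δ hρ hδ
    have ht : (0 : ℝ) < 1 - (d : ℝ) / N := by linarith
    obtain ⟨q, hq⟩ : ∃ q : ℝ≥0∞, q = ENNReal.ofReal (((1 - (d : ℝ) / N) ^ d)⁻¹) := ⟨_, rfl⟩
    rw [← hq]
    -- the two bodies
    have hK1b := body_pre A hKb
    have hK2b : IsBody ((A.trans (Hm d ht.ne')) ⁻¹' K) := body_pre _ hKb
    have hs1 : A ⁻¹' K ⊆ C := by
      intro x hx
      have h1 : A x ∈ A.symm ⁻¹' C := by
        have h2 : A x ∈ K := hx
        rw [hK] at h2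
        exact hull_sub hC' N h2
      rwa [mem_preimage, A.symm_apply_apply] at h1
    have hs2 : C ⊆ (A.trans (Hm d ht.ne')) ⁻¹' K := by
      intro x hx
      have h1 : A x ∈ A.symm ⁻¹' C := by
        rw [mem_preimage, A.symm_apply_apply]
        exact hx
      have h2 := sub_hull hC' g1 g2 hN hNd h1
      rw [hK]
      exact h2
    have hv2 : volume ((A.trans (Hm d ht.ne')) ⁻¹' K) = q * volume (A ⁻¹' K) := by
      obtain ⟨κ, hκ0, hκT, hκ⟩ := vol_pre A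
      have e : (A.trans (Hm d ht.ne')) ⁻¹' K = A ⁻¹' (Hm d ht.ne' ⁻¹' K) := rfl
      rw [e, hκ, hκ, vol_hm ht, hq]
      ring
    have h10 := hK1b.volume_pos.ne'
    have h1T := hK1b.volume_ne_top
    have hr1 : volume C / volume (A ⁻¹' K) ≤ q := by
      rw [ENNReal.div_le_iff h10 h1T, ← hv2]
      exact measure_mono hs2
    have hr2 : volume ((A.trans (Hm d ht.ne')) ⁻¹' K) / volume C ≤ q := by
      rw [ENNReal.div_le_iff h.volume_pos.ne' h.volume_ne_top, hv2]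
      gcongr
    have e1 : dR ρ C ≤ dR ρ (A ⁻¹' K) * q :=
      (dR_mono hK1b h hs1 hρ).trans (by gcongr)
    have e2 : dS K ≤ dS C * q := by
      rw [← dS_pre (A.trans (Hm d ht.ne')) hKb]
      exact (dS_mono h hK2b hs2).trans (by gcongr)
    calc dR ρ C ≤ dR ρ (A ⁻¹' K) * q := e1
      _ ≤ (dS K + ENNReal.ofReal δ) * q := by
        gcongr
        exact hδ A
      _ ≤ (dS C * q + ENNReal.ofReal δ) * q := by gcongr

/-- The choice of `N`. -/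
theorem choose_N (d : ℕ) {ε : ℝ} (hε : 0 < ε) : ∃ N : ℕ, 0 < N ∧ d < N ∧
    (((1 - (d : ℝ) / N) ^ d)⁻¹) ≤ 2 ∧ 2 ^ d * ((((1 - (d : ℝ) / N) ^ d)⁻¹) ^ 2 - 1) ≤ ε / 2 := by
  have h0 : Tendsto (fun N : ℕ => (d : ℝ) / N) atTop (𝓝 0) := tendsto_const_div_atTop_nhds_zero_nat _
  have h1 : Tendsto (fun N : ℕ => ((1 - (d : ℝ) / N) ^ d)⁻¹) atTop (𝓝 1) := by
    have h2 : Tendsto (fun N : ℕ => ((1 - (d : ℝ) / N) ^ d)⁻¹) atTop (𝓝 (((1 - 0) ^ d)⁻¹)) :=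
      ((tendsto_const_nhds.sub h0).pow d).inv₀ (by norm_num)
    simpa using h2
  have h3 : Tendsto (fun N : ℕ => 2 ^ d * ((((1 - (d : ℝ) / N) ^ d)⁻¹) ^ 2 - 1)) atTop (𝓝 0) := by
    have h4 := ((h1.pow 2).sub_const 1).const_mul ((2 : ℝ) ^ d)
    simpa using h4
  obtain ⟨N, a1, a2, a3⟩ := ((eventually_ge_atTop (d + 1)).and
    ((h1.eventually (gt_mem_nhds one_lt_two)).and
      (h3.eventually (gt_mem_nhds (by positivity : (0 : ℝ) < ε / 2))))).exists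
  exact ⟨N, by omega, by omega, a2.le, a3.le⟩

/-- Uniform convergence. -/
theorem uniform (d : ℕ) {ε : ℝ} (hε : 0 < ε) : ∃ ρ₀ : ℝ, 1 ≤ ρ₀ ∧ ∀ C : Set (Fin d → ℝ),
    IsBody C → ∀ ρ : ℝ, ρ₀ ≤ ρ → dR ρ C ≤ dS C + ENNReal.ofReal ε := by
  classical
  obtain ⟨N, hN, hNd, hq2, hqe⟩ := choose_N d hε
  have hex : ∀ F : Finset (Fin d → ℝ), ∃ ρ₀ : ℝ, 1 ≤ ρ₀ ∧
      (IsBody (convexHull ℝ (F : Set (Fin d → ℝ))) → ∀ ρ : ℝ, ρ₀ ≤ ρ →
        ∀ A : (Fin d → ℝ) ≃L[ℝ] (Fin d → ℝ), dR ρ (A ⁻¹' convexHull ℝ (F : Set (Fin d → ℝ))) ≤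
          dS (convexHull ℝ (F : Set (Fin d → ℝ))) + ENNReal.ofReal (ε / 4)) := by
    intro F
    by_cases hF : IsBody (convexHull ℝ (F : Set (Fin d → ℝ)))
    · obtain ⟨ρ₀, h1, h2⟩ := rho_unif hF (δ := ε / 4) (by positivity)
      exact ⟨ρ₀, h1, fun _ => h2⟩
    · exact ⟨1, le_rfl, fun h => absurd h hF⟩
  choose g hg1 hg2 using hex
  refine ⟨1 + ∑ F ∈ (Gr d N).powerset, g F, ?_, ?_⟩
  · have : 0 ≤ ∑ F ∈ (Gr d N).powerset, g F :=
      Finset.sum_nonneg fun F _ => by linarith [hg1 F]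
    linarith
  · intro C hC ρ hρ
    obtain ⟨F, hF, hFb, hmain⟩ := one_body hC hN hNd
    have h1 : g F ≤ ∑ F ∈ (Gr d N).powerset, g F :=
      Finset.single_le_sum (fun F _ => by linarith [hg1 F]) hF
    have h2 : g F ≤ ρ := by linarith
    have h3 := hmain ρ (ε / 4) (by linarith [hg1 F]) (hg2 F hFb ρ h2)
    refine h3.trans ?_
    obtain ⟨q, hq⟩ : ∃ q : ℝ, q = ((1 - (d : ℝ) / N) ^ d)⁻¹ := ⟨_, rfl⟩
    rw [← hq] at hq2 hqe ⊢
    have hN0 : (0 : ℝ) < N := by exact_mod_cast hN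
    have hη1 : (d : ℝ) / N < 1 := by
      rw [div_lt_one hN0]
      exact_mod_cast hNd
    have hη0 : 0 ≤ (d : ℝ) / N := by positivity
    have hq1 : 1 ≤ q := by
      rw [hq]
      exact (one_le_inv₀ (pow_pos (by linarith) _)).2 (pow_le_one₀ (by linarith) (by linarith))
    have hS := dS_le hC
    have hST : dS C ≠ ⊤ := ne_top_of_le_ne_top ENNReal.ofReal_ne_top hS
    obtain ⟨s, hs⟩ : ∃ s : ℝ, s = (dS C).toReal := ⟨_, rfl⟩
    have hs0 : 0 ≤ s := by rw [hs]; exact ENNReal.toReal_nonneg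
    have hSs : dS C = ENNReal.ofReal s := by rw [hs, ENNReal.ofReal_toReal hST]
    have hs2 : s ≤ 2 ^ d := by
      rw [hSs] at hS
      exact (ENNReal.ofReal_le_ofReal_iff (by positivity)).1 hS
    rw [hSs, ← ENNReal.ofReal_mul hs0, ← ENNReal.ofReal_add (by positivity) (by positivity),
      ← ENNReal.ofReal_mul (by positivity), ← ENNReal.ofReal_add hs0 hε.le]
    apply ENNReal.ofReal_le_ofReal
    have h5 : s * (q ^ 2 - 1) ≤ 2 ^ d * (q ^ 2 - 1) :=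
      mul_le_mul_of_nonneg_right hs2 (by nlinarith)
    nlinarith

end Pool.Agent.H.MP_929345_co.Un
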