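import Pool.Agent.H.MP_929345_co.LimitThm
import Pool.Agent.H.MP_929345_co.Un.Lin

/-! Densities and windows in other coordinates. -/

set_option autoImplicit false

namespace Pool.Agent.H.MP_929345_co.Un

open Set MeasureTheory Filter
open scoped ENNReal Topology Pointwise

variable {d : ℕ} {C S T : Set (Fin d → ℝ)} (A : (Fin d → ℝ) ≃L[ℝ] (Fin d → ℝ))

open Classical in
/-- Double counting. -/
theorem double_count (F : Finset (Fin d → ℝ)) {Q Ω : Set (Fin d → ℝ)} (hQ : MeasurableSet Q)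
    (hΩ : ∀ s ∈ F, ∀ q ∈ Q, s - q ∈ Ω)
    (M : ℝ≥0∞) (hM : ∀ z, ((F.filter fun s => s - z ∈ Q).card : ℝ≥0∞) ≤ M) :
    (F.card : ℝ≥0∞) * volume Q ≤ M * volume Ω := by
  have hpre : ∀ s : Fin d → ℝ, MeasurableSet {z | s - z ∈ Q} := fun s =>
    (measurable_const.sub measurable_id) hQ
  have hvol : ∀ s ∈ F, volume Q = ∫⁻ z in Ω, indicator {z | s - z ∈ Q} 1 z := by
    intro s hs
    rw [lintegral_indicator_one (hpre s), Measure.restrict_apply (hpre s)]
    have hsub : {z | s - z ∈ Q} ⊆ Ω := by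
      intro z hz
      have := hΩ s hs (s - z) hz
      rwa [sub_sub_cancel] at this
    rw [inter_eq_self_of_subset_left hsub]
    exact ((Measure.measurePreserving_sub_left volume s).measure_preimage
      hQ.nullMeasurableSet).symm
  calc (F.card : ℝ≥0∞) * volume Q = ∑ s ∈ F, volume Q := by
        rw [Finset.sum_const, nsmul_eq_mul]
    _ = ∑ s ∈ F, ∫⁻ z in Ω, indicator {z | s - z ∈ Q} 1 z := Finset.sum_congr rfl hvol
    _ = ∫⁻ z in Ω, ∑ s ∈ F, indicator {z | s - z ∈ Q} 1 z := by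
        rw [lintegral_finsetSum]
        intro s _
        exact measurable_one.indicator (hpre s)
    _ ≤ ∫⁻ _ in Ω, M := by
        apply lintegral_mono
        intro z
        refine le_trans (le_of_eq ?_) (hM z)
        simp only [indicator, mem_ofPred_eq, Pi.one_apply]
        rw [Finset.sum_boole]
    _ = M * volume Ω := by rw [setLIntegral_const]

theorem vol_cub {r : ℝ} (hr : 0 < r) : volume (cub (0 : Fin d → ℝ) r) =
    ENNReal.ofReal ((2 * r) ^ d) := by
  have : cub (0 : Fin d → ℝ) r = Set.pi univ fun _ => Ico (-r) r := by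
    ext x
    simp [cub]
  rw [this, Real.volume_pi_Ico]
  simp only [Finset.prod_const, Finset.card_univ, Fintype.card_fin]
  rw [ENNReal.ofReal_pow (by linarith)]
  congr 2
  ring

theorem meas_cub (r : ℝ) : MeasurableSet (cub (0 : Fin d → ℝ) r) := by
  have : cub (0 : Fin d → ℝ) r = Set.pi univ fun _ => Ico (-r) r := by
    ext x
    simp [cub]
  rw [this]
  exact MeasurableSet.univ_pi fun _ => measurableSet_Ico

/-- From a bound in windows to a bound for the density. -/
theorem dens_win (h : IsBody C) (hS : IsPacking C S) {r : ℝ} (hr : 0 < r) (M : ℕ)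
    (hM : ∀ (z : Fin d → ℝ) (F : Finset (Fin d → ℝ)),
      (∀ s ∈ F, s ∈ S ∧ A s ∈ cub z r) → F.card ≤ M) :
    dens C S ≤ M * (volume C / volume (A ⁻¹' cub 0 r)) := by
  classical
  obtain ⟨κ, hκ0, hκT, hκ⟩ := vol_pre A
  set Q : Set (Fin d → ℝ) := A ⁻¹' cub 0 r with hQ
  have hQm : MeasurableSet Q := A.continuous.measurable (meas_cub r)
  have hvQ : volume Q = κ * ENNReal.ofReal ((2 * r) ^ d) := by rw [hQ, hκ, vol_cub hr]
  have hQ0 : volume Q ≠ 0 := by
    rw [hvQ]
    have : (0 : ℝ) < (2 * r) ^ d := by positivity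
    exact mul_ne_zero hκ0 (ENNReal.ofReal_pos.2 this).ne'
  have hQT : volume Q ≠ ⊤ := by
    rw [hvQ]
    exact ENNReal.mul_ne_top hκT ENNReal.ofReal_ne_top
  -- the norm of `A.symm`
  set c : ℝ := ‖(A.symm : (Fin d → ℝ) →L[ℝ] (Fin d → ℝ))‖ * r with hc
  have hc0 : 0 ≤ c := by positivity
  have hQc : ∀ q ∈ Q, ∀ i, |q i| ≤ c := by
    intro q hq i
    have h1 : ‖A q‖ ≤ r := by
      rw [pi_norm_le_iff_of_nonneg hr.le]
      intro j
      have := hq j
      rw [Pi.zero_apply] at this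
      rw [Real.norm_eq_abs, abs_le]
      constructor <;> linarith [this.1, this.2]
    have h2 := (A.symm : (Fin d → ℝ) →L[ℝ] (Fin d → ℝ)).le_opNorm (A q)
    have h3 : (A.symm : (Fin d → ℝ) →L[ℝ] (Fin d → ℝ)) (A q) = q := A.symm_apply_apply q
    rw [h3] at h2
    have h4 := norm_le_pi_norm q i
    rw [Real.norm_eq_abs] at h4
    exact h4.trans (h2.trans (mul_le_mul_of_nonneg_left h1 (norm_nonneg _)))
  have h0C : (0 : Fin d → ℝ) ∈ C := interior_subset h.zero_mem_interior
  rw [dens_def]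
  have hX : (M : ℝ≥0∞) * (volume C / volume Q) ≠ ⊤ :=
    ENNReal.mul_ne_top (ENNReal.natCast_ne_top M) (ENNReal.div_ne_top h.volume_ne_top hQ0)
  have hlim : Tendsto (fun l : ℝ => ENNReal.ofReal ((1 + c / l) ^ d) *
      ((M : ℝ≥0∞) * (volume C / volume Q))) atTop
      (𝓝 ((M : ℝ≥0∞) * (volume C / volume Q))) := by
    have h1 : Tendsto (fun l : ℝ => (1 + c / l) ^ d) atTop (𝓝 ((1 + 0) ^ d)) :=
      (tendsto_const_nhds.add (tendsto_const_nhds.div_atTop tendsto_id)).pow d
    rw [add_zero, one_pow] at h1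
    have h2 := ENNReal.Tendsto.mul_const (ENNReal.tendsto_ofReal h1) (b :=
      (M : ℝ≥0∞) * (volume C / volume Q)) (Or.inr hX)
    rwa [ENNReal.ofReal_one, one_mul] at h2
  rw [← hlim.limsup_eq]
  refine limsup_le_limsup ?_
  filter_upwards [eventually_ge_atTop 1] with l hl
  have hl0 : 0 < l := by linarith
  have hfin : (S ∩ Win C l).Finite :=
    finite_inter h (fun x hx y hy hne => by linarith [hS x hx y hy hne]) hl0.le
  have hcard : (S ∩ Win C l).ncard = hfin.toFinset.card := Set.ncard_eq_toFinset_card _ hfin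
  have hdc := double_count hfin.toFinset (Q := Q) (Ω := {x : Fin d → ℝ | ∀ i, |x i| ≤ l + c}) hQm
    (by
      intro s hs q hq i
      rw [Set.Finite.mem_toFinset] at hs
      have h1 := hs.2 0 h0C i
      have h2 := hQc q hq i
      simp only [Pi.zero_apply, add_zero] at h1
      rw [Pi.sub_apply]
      refine (abs_sub _ _).trans ?_
      linarith)
    (M : ℝ≥0∞)
    (by
      intro z
      have h5 := hM (A z) (hfin.toFinset.filter fun s => s - z ∈ Q) (by
        intro s hs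
        rw [Finset.mem_filter, Set.Finite.mem_toFinset] at hs
        refine ⟨hs.1.1, ?_⟩
        have h6 : A (s - z) ∈ cub 0 r := hs.2
        rw [map_sub] at h6
        intro i
        have h7 := h6 i
        rw [Pi.zero_apply, Pi.sub_apply] at h7
        constructor <;> linarith [h7.1, h7.2])
      exact_mod_cast h5)
  rw [volume_cube _ (by linarith), ← hcard] at hdc
  have e1 : ENNReal.ofReal ((2 * (l + c)) ^ d) =
      ENNReal.ofReal ((1 + c / l) ^ d) * ENNReal.ofReal ((2 * l) ^ d) := by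
    rw [← ENNReal.ofReal_mul (by positivity), ← mul_pow]
    congr 2
    field_simp
  apply ENNReal.div_le_of_le_mul
  calc ((S ∩ Win C l).ncard : ℝ≥0∞) * volume C
      = ((S ∩ Win C l).ncard : ℝ≥0∞) * volume Q * (volume C / volume Q) := by
        rw [mul_assoc, ENNReal.mul_div_cancel hQ0 hQT]
    _ ≤ M * ENNReal.ofReal ((2 * (l + c)) ^ d) * (volume C / volume Q) := by gcongr
    _ = _ := by rw [e1]; ring

/-- The members of a `ρ`-separable packing in a cube. -/
theorem loc_card (h : IsBody C) (r : ℕ) (hr : 0 < r) : ∃ ρ₀ : ℝ, 1 ≤ ρ₀ ∧ ∀ ρ : ℝ, ρ₀ ≤ ρ →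
    ∀ S : Set (Fin d → ℝ), IsPacking C S → RhoSep ρ C S →
      ∀ (x : Fin d → ℝ) (T : Finset (Fin d → ℝ)), (T : Set (Fin d → ℝ)) ⊆ S →
      (T : Set (Fin d → ℝ)) ⊆ cub x r → T.card ≤ Nn C r := by
  classical
  have hr' : (0 : ℝ) < r := by exact_mod_cast hr
  -- the gauge is bounded on cubes
  obtain ⟨K, hK0, hK⟩ : ∃ K : ℝ, 0 < K ∧ ∀ v : Fin d → ℝ, (∀ i, |v i| ≤ 2 * r) → gauge C v ≤ K := by
    have hc : IsCompact (Set.Icc (fun _ : Fin d => -(2 * (r : ℝ))) (fun _ => 2 * (r : ℝ))) :=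
      isCompact_Icc
    obtain ⟨K, hK⟩ := (hc.bddAbove_image h.continuous_gauge.continuousOn)
    refine ⟨max K 1, by positivity, fun v hv => ?_⟩
    exact le_trans (hK ⟨v, ⟨fun i => (abs_le.1 (hv i)).1, fun i => (abs_le.1 (hv i)).2⟩, rfl⟩)
      (le_max_left _ _)
  refine ⟨K + 1, by linarith, fun ρ hρ S hSp hSr => ?_⟩
  have hρ0 : 0 < ρ := by linarith
  intro x T hTS hTx
  rcases T.eq_empty_or_nonempty with rfl | ⟨c, hc⟩
  · simp
  have h1 : (T : Set (Fin d → ℝ)) ⊆ {c' ∈ S | ∀ w ∈ C, ∃ v ∈ C, c' + w = c + ρ • v} := by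
    intro c' hc'
    refine ⟨hTS hc', fun w hw => ⟨ρ⁻¹ • (c' - c + w), ?_, ?_⟩⟩
    · rw [← h.gauge_le_one_iff, h.gauge_smul, abs_of_pos (inv_pos.2 hρ0), inv_mul_le_iff₀ hρ0]
      have h2 := gauge_add_le h.convex h.absorbent (c' - c) w
      have h3 := h.gauge_le_one_iff.2 hw
      have h4 : gauge C (c' - c) ≤ K := by
        apply hK
        intro i
        have h5 := hTx hc i
        have h6 := hTx hc' i
        rw [Pi.sub_apply, abs_le]
        constructor <;> linarith [h5.1, h5.2, h6.1, h6.2]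
      linarith
    · rw [smul_smul, mul_inv_cancel₀ hρ0.ne', one_smul]
      abel
  have hTS' : TSP C (T : Set (Fin d → ℝ)) := by
    refine ⟨fun a ha b hb hab => hSp a (hTS ha) b (hTS hb) hab, ?_⟩
    intro a ha b hb hab
    obtain ⟨f, hf, t, g1, g2, g3⟩ := hSr c (hTS hc) a (h1 ha) b (h1 hb) hab
    exact ⟨f, hf, t, g1, g2, fun z hz w hw => g3 z (h1 hz) w hw⟩
  exact card_le_Nn h hr'.le T hTS' x hTx

end Pool.Agent.H.MP_929345_co.Un
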